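import Mathlib
import Pool.Agent.Helper22.FSpace

/-!
Surjective isometries of metric linear spaces which preserve the metrics `‖2⁻ⁿ (x - y)‖` are
affine.
-/

set_option autoImplicit false

open scoped Topology

namespace Pool.Agent.Helper42.MU

section A

variable {E : Type*} [NormedAddCommGroup E] [Module ℝ E]

theorem tendsto_half [ContinuousSMul ℝ E] (v : E) :
    Filter.Tendsto (fun n : ℕ => ‖((1 : ℝ) / 2) ^ n • v‖) Filter.atTop (𝓝 0) := by
  have h1 : Filter.Tendsto (fun n : ℕ => ((1 : ℝ) / 2) ^ n) Filter.atTop (𝓝 0) :=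
    tendsto_pow_atTop_nhds_zero_of_lt_one (by norm_num) (by norm_num)
  have h2 : Filter.Tendsto (fun n : ℕ => ‖((1 : ℝ) / 2) ^ n • v‖) Filter.atTop
      (𝓝 (‖(0 : ℝ) • v‖)) := (Filter.Tendsto.smul_const h1 v).norm
  rwa [zero_smul, norm_zero] at h2

theorem half_succ (n : ℕ) (v : E) :
    ((1 : ℝ) / 2) ^ (n + 1) • (v + v) = ((1 : ℝ) / 2) ^ n • v := by
  rw [← two_smul ℝ v, smul_smul]
  congr 1
  rw [pow_succ]
  ring

/-- The dihedral argument: two involutions `R` (the reflection in `m`) and `R'` which exchange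
`a` and `b`. -/
theorem fixed_of_scales [ContinuousSMul ℝ E] (δ : ℝ) (m u : E) (hu : 4 * ‖u‖ ≤ δ)
    (R R' : Equiv.Perm E) (hRR : R * R = 1) (hRR' : R' * R' = 1)
    (hR : ∀ y, R y = m + m - y) (hR'a : R' (m + u) = m - u)
    (H : ∀ (k n : ℕ) (x y : E), ‖x - y‖ ≤ δ →
      ‖((1 : ℝ) / 2) ^ n • (((R * R') ^ k) x - ((R * R') ^ k) y)‖
        = ‖((1 : ℝ) / 2) ^ n • (x - y)‖) : R' m = m := by
  set T : Equiv.Perm E := R * R' with hT
  have hRinv : R⁻¹ = R := inv_eq_of_mul_eq_one_left hRR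
  have hRinv' : R'⁻¹ = R' := inv_eq_of_mul_eq_one_left hRR'
  have hTinv : T⁻¹ = R' * R := by rw [hT, mul_inv_rev, hRinv, hRinv']
  have hsemi : SemiconjBy R T T⁻¹ := by
    show R * T = T⁻¹ * R
    rw [hTinv, hT, ← mul_assoc, hRR, one_mul, mul_assoc, hRR, mul_one]
  have hRm : R m = m := by rw [hR]; abel
  have hTa : T (m + u) = m + u := by
    rw [hT, Equiv.Perm.mul_apply, hR'a, hR]
    abel
  have hTka : ∀ k : ℕ, (T ^ k) (m + u) = m + u := by
    intro k
    induction k with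
    | zero => rfl
    | succ k ih => rw [pow_succ, Equiv.Perm.mul_apply, hTa, ih]
  -- the points `p k`
  have hneg : ∀ k : ℕ, (T⁻¹ ^ k) m = m + m - (T ^ k) m := by
    intro k
    have h1 : R * T ^ k = T⁻¹ ^ k * R := hsemi.pow_right k
    have h2 : (R * T ^ k) m = (T⁻¹ ^ k * R) m := by rw [h1]
    rw [Equiv.Perm.mul_apply, Equiv.Perm.mul_apply, hRm, hR] at h2
    exact h2.symm
  have hu0 : ‖u‖ ≤ δ := by
    have := norm_nonneg u
    linarith
  have hbound : ∀ k n : ℕ, ‖((1 : ℝ) / 2) ^ n • ((T ^ k) m - m)‖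
      ≤ ‖((1 : ℝ) / 2) ^ n • u‖ + ‖((1 : ℝ) / 2) ^ n • u‖ := by
    intro k n
    have h1 := H k n m (m + u) (by
      rw [sub_add_cancel_left, norm_neg]
      exact hu0)
    rw [hTka, sub_add_cancel_left, smul_neg, norm_neg] at h1
    have h2 : ((1 : ℝ) / 2) ^ n • ((T ^ k) m - m)
        = ((1 : ℝ) / 2) ^ n • ((T ^ k) m - (m + u)) + ((1 : ℝ) / 2) ^ n • u := by
      rw [← smul_add]
      congr 1
      abel
    rw [h2]
    refine (norm_add_le _ _).trans ?_
    rw [h1]
  have hsmall : ∀ k : ℕ, ‖(T ^ k) m - m‖ ≤ 2 * ‖u‖ := by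
    intro k
    have := hbound k 0
    rw [pow_zero, one_smul, one_smul] at this
    linarith
  have hdouble : ∀ k n : ℕ, ‖((1 : ℝ) / 2) ^ (n + 1) • ((T ^ (2 * k)) m - m)‖
      = ‖((1 : ℝ) / 2) ^ n • ((T ^ k) m - m)‖ := by
    intro k n
    have e1 : (T ^ k) m - (T⁻¹ ^ k) m = ((T ^ k) m - m) + ((T ^ k) m - m) := by
      rw [hneg]; abel
    have h1 := H k (n + 1) ((T ^ k) m) ((T⁻¹ ^ k) m) (by
      rw [e1]
      refine (norm_add_le _ _).trans ?_
      have := hsmall k
      linarith)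
    have e2 : (T ^ k) ((T ^ k) m) = (T ^ (2 * k)) m := by
      rw [two_mul, pow_add, Equiv.Perm.mul_apply]
    have e3 : (T ^ k) ((T⁻¹ ^ k) m) = m := by
      rw [← Equiv.Perm.mul_apply, ← (Commute.inv_right (Commute.refl T)).mul_pow, mul_inv_cancel,
        one_pow]
      rfl
    rw [e2, e3, e1, half_succ] at h1
    exact h1
  have hchain : ∀ n : ℕ, ‖((1 : ℝ) / 2) ^ n • ((T ^ (2 ^ n)) m - m)‖ = ‖T m - m‖ := by
    intro n
    induction n with
    | zero => rw [pow_zero, pow_zero, one_smul, pow_one]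
    | succ n ih => rw [pow_succ' 2 n, hdouble, ih]
  have hle : ∀ n : ℕ, ‖T m - m‖ ≤ ‖((1 : ℝ) / 2) ^ n • u‖ + ‖((1 : ℝ) / 2) ^ n • u‖ := by
    intro n
    rw [← hchain n]
    exact hbound _ _
  have hlim : Filter.Tendsto (fun n : ℕ => ‖((1 : ℝ) / 2) ^ n • u‖ + ‖((1 : ℝ) / 2) ^ n • u‖)
      Filter.atTop (𝓝 (0 + 0)) := (tendsto_half u).add (tendsto_half u)
  rw [add_zero] at hlim
  have h0 : ‖T m - m‖ ≤ 0 := ge_of_tendsto' hlim hle
  have h1 : T m = m := sub_eq_zero.mp (norm_eq_zero.mp (le_antisymm h0 (norm_nonneg _)))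
  have h2 : R (R' m) = m := h1
  have h3 : R (R (R' m)) = R m := by rw [h2]
  have h4 : R (R (R' m)) = R' m := by
    rw [← Equiv.Perm.mul_apply, hRR]
    rfl
  rw [h4, hRm] at h3
  exact h3

end A

section B

variable {E F : Type*} [NormedAddCommGroup E] [NormedAddCommGroup F]

/-- The point reflection `y ↦ c - y`. -/
def refl {G : Type*} [AddCommGroup G] (c : G) : Equiv.Perm G where
  toFun y := c - y
  invFun y := c - y
  left_inv y := by simp
  right_inv y := by simp

theorem refl_apply {G : Type*} [AddCommGroup G] (c y : G) : refl c y = c - y := rfl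

theorem refl_mul_self {G : Type*} [AddCommGroup G] (c : G) : refl c * refl c = 1 := by
  ext y
  rw [Equiv.Perm.mul_apply, refl_apply, refl_apply, sub_sub_cancel]
  rfl

/-- The reflection of `F`, transported to `E`. -/
def trefl (e : E ≃ F) (c : F) : Equiv.Perm E := (e.trans (refl c)).trans e.symm

omit [NormedAddCommGroup E] in
theorem trefl_apply (e : E ≃ F) (c : F) (y : E) : trefl e c y = e.symm (c - e y) := rfl

omit [NormedAddCommGroup E] in
theorem trefl_mul_self (e : E ≃ F) (c : F) : trefl e c * trefl e c = 1 := by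
  ext y
  rw [Equiv.Perm.mul_apply, trefl_apply, trefl_apply, Equiv.apply_symm_apply, sub_sub_cancel,
    Equiv.symm_apply_apply]
  rfl

theorem jensen_core [Module ℝ E] [ContinuousSMul ℝ E] (δ : ℝ) (e : E ≃ F)
    (x u : E) (hu : 4 * ‖u‖ ≤ δ)
    (H : ∀ (k n : ℕ) (y z : E), ‖y - z‖ ≤ δ →
      ‖((1 : ℝ) / 2) ^ n • (((refl (x + x) * trefl e (e (x + u) + e (x - u))) ^ k) y
        - ((refl (x + x) * trefl e (e (x + u) + e (x - u))) ^ k) z)‖
        = ‖((1 : ℝ) / 2) ^ n • (y - z)‖) :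
    e (x + u) + e (x - u) = e x + e x := by
  have h := fixed_of_scales δ x u hu (refl (x + x)) (trefl e (e (x + u) + e (x - u)))
    (refl_mul_self _) (trefl_mul_self _ _) (fun y => rfl)
    (by rw [trefl_apply, add_sub_cancel_left, Equiv.symm_apply_apply]) H
  rw [trefl_apply] at h
  have h2 := congrArg e h
  rw [Equiv.apply_symm_apply] at h2
  rw [← sub_eq_iff_eq_add]
  exact h2

theorem isometry_refl (c : E) : Isometry (refl c) := by
  apply Isometry.of_dist_eq
  intro x y
  rw [refl_apply, refl_apply, dist_sub_left]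

theorem isometry_trefl (e : E ≃ F) (he : Isometry e) (c : F) : Isometry (trefl e c) := by
  apply Isometry.of_dist_eq
  intro x y
  rw [← he.dist_eq, trefl_apply, trefl_apply, Equiv.apply_symm_apply, Equiv.apply_symm_apply,
    dist_sub_left, he.dist_eq]

theorem isometry_pow (T : Equiv.Perm E) (hT : Isometry T) (k : ℕ) : Isometry (T ^ k) := by
  induction k with
  | zero => exact isometry_id
  | succ k ih =>
    rw [pow_succ]
    exact ih.comp hT

variable [Module ℝ E] [ContinuousSMul ℝ E]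

/-- If all surjective isometries of `E` onto itself preserve, at small distances, the metrics
`‖2⁻ⁿ (x - y)‖`, then all surjective isometries of `E` onto metric abelian groups are additive. -/
theorem additive_of_scales (δ : ℝ) (hδ : 0 < δ)
    (H : ∀ g : E → E, Isometry g → Function.Surjective g → ∀ (n : ℕ) (x y : E), ‖x - y‖ ≤ δ →
      ‖((1 : ℝ) / 2) ^ n • (g x - g y)‖ = ‖((1 : ℝ) / 2) ^ n • (x - y)‖)
    (f : E → F) (hf : Isometry f) (hs : Function.Surjective f) (h0 : f 0 = 0) (x y : E) :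
    f (x + y) = f x + f y := by
  let e : E ≃ F := Equiv.ofBijective f ⟨hf.injective, hs⟩
  have he : Isometry e := hf
  have hj : ∀ x u : E, ‖u‖ ≤ δ / 4 → f (x + u) + f (x - u) = f x + f x := by
    intro x u hu
    apply jensen_core δ e x u (by linarith)
    intro k n y z hyz
    have h1 : Isometry (refl (x + x) * trefl e (e (x + u) + e (x - u)) : Equiv.Perm E) :=
      (isometry_refl (x + x)).comp (isometry_trefl e he (e (x + u) + e (x - u)))
    exact H _ (isometry_pow _ h1 k) (Equiv.surjective _) n y z hyz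
  have h := Pool.Agent.Helper22.affine_of_local f (δ / 4) (by linarith) hj x y
  rw [h0, sub_zero] at h
  exact h

theorem pow_preserves {X : Type*} (D : X → X → ℝ) (R R' : Equiv.Perm X)
    (hR : ∀ x y, D (R x) (R y) = D x y) (hR' : ∀ x y, D (R' x) (R' y) = D x y) (k : ℕ) :
    ∀ x y, D (((R * R') ^ k) x) (((R * R') ^ k) y) = D x y := by
  induction k with
  | zero => intro x y; rfl
  | succ k ih =>
    intro x y
    have h1 : ∀ w, ((R * R') ^ (k + 1)) w = ((R * R') ^ k) (R (R' w)) := by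
      intro w
      rw [pow_succ, Equiv.Perm.mul_apply, Equiv.Perm.mul_apply]
    rw [h1, h1, ih, hR, hR']

/-- A single isometry preserving the metrics `‖2⁻ⁿ (x - y)‖` is additive. -/
theorem additive_of_scales_single [Module ℝ F] (f : E → F) (hf : Isometry f)
    (hs : Function.Surjective f) (h0 : f 0 = 0)
    (H : ∀ (n : ℕ) (x y : E), ‖((1 : ℝ) / 2) ^ n • (f x - f y)‖ = ‖((1 : ℝ) / 2) ^ n • (x - y)‖)
    (x y : E) : f (x + y) = f x + f y := by
  let e : E ≃ F := Equiv.ofBijective f ⟨hf.injective, hs⟩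
  have hj : ∀ x u : E, ‖u‖ ≤ 1 → f (x + u) + f (x - u) = f x + f x := by
    intro x u hu
    apply jensen_core (4 * ‖u‖) e x u le_rfl
    intro k n y z _
    refine pow_preserves (fun y z => ‖((1 : ℝ) / 2) ^ n • (y - z)‖) _ _ ?_ ?_ k y z
    · intro y z
      show ‖((1 : ℝ) / 2) ^ n • (refl (x + x) y - refl (x + x) z)‖ = _
      rw [refl_apply, refl_apply, sub_sub_sub_cancel_left, ← norm_neg, ← smul_neg, neg_sub]
    · intro y z
      show ‖((1 : ℝ) / 2) ^ n • (trefl e _ y - trefl e _ z)‖ = ‖((1 : ℝ) / 2) ^ n • (y - z)‖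
      rw [trefl_apply, trefl_apply, ← H]
      have h1 : ∀ w, f (e.symm w) = w := fun w => Equiv.apply_symm_apply e w
      rw [h1, h1, sub_sub_sub_cancel_left, ← norm_neg, ← smul_neg, neg_sub]
      exact H n y z
  have h := Pool.Agent.Helper22.affine_of_local f 1 one_pos hj x y
  rw [h0, sub_zero] at h
  exact h

end B

section C

variable {E : Type*} [NormedAddCommGroup E] [Module ℝ E]

/-- The passage from the scale `1/2` to all scales `2⁻ⁿ`. -/
theorem scales_of_half
    (H : ∀ g : E → E, Isometry g → Function.Surjective g → ∀ x y : E,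
      ‖((1 : ℝ) / 2) • (g x - g y)‖ ≤ ‖((1 : ℝ) / 2) • (x - y)‖) (n : ℕ) :
    ∀ g : E → E, Isometry g → Function.Surjective g → ∀ x y : E,
      ‖((1 : ℝ) / 2) ^ n • (g x - g y)‖ = ‖((1 : ℝ) / 2) ^ n • (x - y)‖ := by
  have Heq : ∀ g : E → E, Isometry g → Function.Surjective g → ∀ x y : E,
      ‖((1 : ℝ) / 2) • (g x - g y)‖ = ‖((1 : ℝ) / 2) • (x - y)‖ := by
    intro g hg hgs x y
    apply le_antisymm (H g hg hgs x y)
    let e : E ≃ E := Equiv.ofBijective g ⟨hg.injective, hgs⟩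
    have he : Isometry e.symm := by
      apply Isometry.of_dist_eq
      intro x y
      rw [← hg.dist_eq]
      have h1 : ∀ w, g (e.symm w) = w := fun w => Equiv.apply_symm_apply e w
      rw [h1, h1]
    have h := H e.symm he e.symm.surjective (g x) (g y)
    have h1 : ∀ w, e.symm (g w) = w := fun w => Equiv.symm_apply_apply e w
    rwa [h1, h1] at h
  induction n with
  | zero =>
    intro g hg _ x y
    rw [pow_zero, one_smul, one_smul, ← dist_eq_norm, ← dist_eq_norm, hg.dist_eq]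
  | succ n ih =>
    intro g hg hgs x y
    have h2 : ((1 : ℝ) / 2) ^ n * 2 ^ n = 1 := by
      rw [← mul_pow]
      norm_num
    have h2' : (2 : ℝ) ^ n * ((1 : ℝ) / 2) ^ n = 1 := by
      rw [mul_comm, h2]
    have hh : ∀ v w : E, ((1 : ℝ) / 2) ^ n • g v - ((1 : ℝ) / 2) ^ n • g w
        = ((1 : ℝ) / 2) ^ n • (g v - g w) := fun v w => (smul_sub _ _ _).symm
    have h3 := Heq (fun w => ((1 : ℝ) / 2) ^ n • g ((2 : ℝ) ^ n • w))
      (by
        apply Isometry.of_dist_eq
        intro v w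
        rw [dist_eq_norm, dist_eq_norm, hh, ih g hg hgs, ← smul_sub, smul_smul, h2, one_smul])
      (by
        intro w
        obtain ⟨v, hv⟩ := hgs ((2 : ℝ) ^ n • w)
        refine ⟨((1 : ℝ) / 2) ^ n • v, ?_⟩
        show ((1 : ℝ) / 2) ^ n • g ((2 : ℝ) ^ n • ((1 : ℝ) / 2) ^ n • v) = w
        rw [smul_smul, h2', one_smul, hv, smul_smul, h2, one_smul])
      (((1 : ℝ) / 2) ^ n • x) (((1 : ℝ) / 2) ^ n • y)
    have h4 : ∀ v : E, (2 : ℝ) ^ n • ((1 : ℝ) / 2) ^ n • v = v := by
      intro v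
      rw [smul_smul, h2', one_smul]
    have h5 : ∀ v : E, ((1 : ℝ) / 2) • ((1 : ℝ) / 2) ^ n • v = ((1 : ℝ) / 2) ^ (n + 1) • v := by
      intro v
      rw [smul_smul, pow_succ']
    rw [h4, h4, hh, h5, ← smul_sub, h5] at h3
    exact h3

/-- From halving near zero to all scales. -/
theorem scales_of_halving [ContinuousSMul ℝ E] (δ : ℝ) (hδ : 0 < δ)
    (H : ∀ g : E → E, Isometry g → Function.Surjective g → g 0 = 0 → ∀ x : E, ‖x‖ ≤ δ →
      g (((1 : ℝ) / 2) • x) = ((1 : ℝ) / 2) • g x) :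
    ∃ δ' : ℝ, 0 < δ' ∧ ∀ g : E → E, Isometry g → Function.Surjective g → ∀ (n : ℕ) (x y : E),
      ‖x - y‖ ≤ δ' → ‖((1 : ℝ) / 2) ^ n • (g x - g y)‖ = ‖((1 : ℝ) / 2) ^ n • (x - y)‖ := by
  -- a small balanced neighbourhood
  obtain ⟨δ', hδ', hb⟩ : ∃ δ' : ℝ, 0 < δ' ∧ ∀ x : E, ‖x‖ ≤ δ' →
      ∀ n : ℕ, ‖((1 : ℝ) / 2) ^ n • x‖ ≤ δ := by
    have h1 : ∀ t ∈ Set.Icc (0 : ℝ) 1, ∀ᶠ p : ℝ × E in 𝓝 t ×ˢ 𝓝 (0 : E), ‖p.1 • p.2‖ < δ := by
      intro t _
      have hc : Continuous fun p : ℝ × E => ‖p.1 • p.2‖ := (continuous_fst.smul continuous_snd).norm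
      have := hc.tendsto (t, 0)
      rw [nhds_prod_eq] at this
      simp only [smul_zero, norm_zero] at this
      exact this.eventually (gt_mem_nhds hδ)
    have h2 := (isCompact_Icc (a := (0 : ℝ)) (b := 1)).eventually_forall_of_forall_eventually
      (x₀ := (0 : E)) (P := fun x t => ‖t • x‖ < δ) (by
        intro t ht
        have := h1 t ht
        rw [← nhds_prod_eq] at this
        rw [nhds_prod_eq]
        have h3 := (continuous_swap.tendsto ((0 : E), t))
        rw [nhds_prod_eq] at h3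
        exact h3.eventually this)
    rw [Metric.eventually_nhds_iff] at h2
    obtain ⟨ε, hε, h3⟩ := h2
    refine ⟨ε / 2, by linarith, ?_⟩
    intro x hx n
    have h4 : dist x 0 < ε := by
      rw [dist_zero_right]
      linarith
    exact (h3 h4 _ ⟨by positivity, pow_le_one₀ (by norm_num) (by norm_num)⟩).le
  refine ⟨δ', hδ', ?_⟩
  intro g hg hgs n x y hxy
  set G : E → E := fun w => g (w + y) - g y with hG
  have hGiso : Isometry G := by
    apply Isometry.of_dist_eq
    intro v w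
    rw [hG]
    show dist (g (v + y) - g y) (g (w + y) - g y) = _
    rw [dist_sub_right, hg.dist_eq, dist_add_right]
  have hGs : Function.Surjective G := by
    intro w
    obtain ⟨v, hv⟩ := hgs (w + g y)
    refine ⟨v - y, ?_⟩
    show g (v - y + y) - g y = w
    rw [sub_add_cancel, hv, add_sub_cancel_right]
  have hG0 : G 0 = 0 := by
    show g (0 + y) - g y = 0
    rw [zero_add, sub_self]
  have hn : ∀ n : ℕ, G (((1 : ℝ) / 2) ^ n • (x - y)) = ((1 : ℝ) / 2) ^ n • G (x - y) := by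
    intro n
    induction n with
    | zero => rw [pow_zero, one_smul, one_smul]
    | succ n ih =>
      rw [pow_succ', mul_smul, H G hGiso hGs hG0 _ (hb _ hxy n), ih, smul_smul]
  have h5 : G (x - y) = g x - g y := by
    show g (x - y + y) - g y = _
    rw [sub_add_cancel]
  have h6 := hGiso.dist_eq (((1 : ℝ) / 2) ^ n • (x - y)) 0
  rw [hG0, dist_zero_right, dist_zero_right, hn, h5] at h6
  exact h6

end C

end Pool.Agent.Helper42.MU
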